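import Pool.Agent.Helper26.CL.St
import Pool.Agent.Helper84.LE.BGR

/-! # Project CM (MP_65faa7), module N2: the inverse of `g`, symmetry of `g` -/

set_option autoImplicit false

open scoped BigOperators ENNReal Topology Matrix
open Pool.LE Pool.NL Filter

namespace Pool.CN

namespace N2M

theorem ind_mul_ite (A : Prop) [Decidable A] (c : ℝ) : ind A * c = if A then c else 0 := by
  unfold ind
  by_cases h : A
  · rw [if_pos h, if_pos h, one_mul]
  · rw [if_neg h, if_neg h, zero_mul]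

/-- abstract linear algebra -/
theorem lin {β : Type} [Fintype β] [DecidableEq β] (g G P : Matrix β β ℝ)
    (hG : Gᵀ = G) (hP : Pᵀ = P) (hE : G = g + g * P * G)
    (hr : ∀ x, ∑ y, |g x y - (1 : Matrix β β ℝ) x y| ≤ 1 / 4) :
    ∃ gi : Matrix β β ℝ, giᵀ = gi ∧ gi * g = 1 ∧ (gi - P) * G = 1 ∧ G * (gi - P) = 1 ∧ gᵀ = g ∧
      G = g + G * (P * g) ∧ ∀ x, ∑ y, |gi x y| ≤ 4 / 3 := by
  have hdet : g.det ≠ 0 := by
    refine det_ne_zero_of_sum_row_lt_diag ?_
    intro k
    have h1 := hr k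
    rw [← Finset.add_sum_erase _ _ (Finset.mem_univ k)] at h1
    rw [Matrix.one_apply_eq] at h1
    have h2 : ∑ y ∈ Finset.univ.erase k, |g k y - (1 : Matrix β β ℝ) k y| =
        ∑ y ∈ Finset.univ.erase k, ‖g k y‖ := by
      refine Finset.sum_congr rfl fun y hy => ?_
      rw [Matrix.one_apply_ne (Finset.ne_of_mem_erase hy).symm, sub_zero, Real.norm_eq_abs]
    rw [h2] at h1
    have h3 : 1 - |g k k - 1| ≤ |g k k| := by
      have := abs_sub_abs_le_abs_sub (1 : ℝ) (1 - g k k)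
      rw [abs_one, sub_sub_cancel, abs_sub_comm 1 (g k k)] at this
      exact this
    rw [Real.norm_eq_abs]
    have h4 : 0 ≤ |g k k - 1| := abs_nonneg _
    linarith
  have hu : IsUnit g.det := isUnit_iff_ne_zero.2 hdet
  have hig : g⁻¹ * g = 1 := Matrix.nonsing_inv_mul _ hu
  set gi : Matrix β β ℝ := g⁻¹ with hgi
  have hgig : g * gi = 1 := mul_eq_one_comm.1 hig
  have h1 : (gi - P) * G = 1 := by
    have h2 : gi * G = 1 + P * G := by
      calc gi * G = gi * (g + g * P * G) := by rw [← hE]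
        _ = gi * g + gi * g * (P * G) := by
            rw [mul_add]
            congr 1
            simp only [mul_assoc]
        _ = 1 + P * G := by rw [hig, one_mul]
    rw [sub_mul, h2, add_sub_cancel_right]
  have h2 : G * (gi - P) = 1 := mul_eq_one_comm.1 h1
  have h3 : G * (gi - P)ᵀ = 1 := by
    have := congrArg Matrix.transpose h1
    rw [Matrix.transpose_mul, hG, Matrix.transpose_one] at this
    exact this
  have h4 : gi - P = (gi - P)ᵀ := left_inv_eq_right_inv h1 h3
  have h5 : giᵀ = gi := by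
    rw [Matrix.transpose_sub, hP] at h4
    have := sub_left_injective h4
    exact this.symm
  have h6 : gᵀ = g := by
    have h7 : gᵀ * gi = 1 := by
      have := congrArg Matrix.transpose hig
      rw [Matrix.transpose_mul, h5, Matrix.transpose_one] at this
      exact this
    exact left_inv_eq_right_inv h7 hig
  refine ⟨gi, h5, hig, h1, h2, h6, ?_, ?_⟩
  · have h7 : G * (gi - P) * g = g := by rw [h2, one_mul]
    have h8 : G * (gi - P) * g = G - G * (P * g) := by
      rw [mul_assoc, sub_mul, hig, mul_sub, mul_one]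
    rw [h8] at h7
    exact sub_eq_iff_eq_add.1 h7
  · intro x
    set s : ℝ := ∑ y, |gi x y| with hs
    have h7 : ∀ y, gi x y = (1 : Matrix β β ℝ) x y - ∑ z, gi x z * (g z y - (1 : Matrix β β ℝ) z y) := by
      intro y
      have h8 : gi = 1 - gi * (g - 1) := by
        rw [mul_sub, hig, mul_one, sub_sub_cancel]
      have h9 := congrFun (congrFun h8 x) y
      rw [Matrix.sub_apply, Matrix.mul_apply] at h9
      simpa only [Matrix.sub_apply] using h9
    have h8 : s ≤ 1 + s * (1 / 4) := by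
      have e1 : s ≤ ∑ y, (|(1 : Matrix β β ℝ) x y| +
          ∑ z, |gi x z| * |g z y - (1 : Matrix β β ℝ) z y|) := by
        rw [hs]
        refine Finset.sum_le_sum fun y _ => ?_
        rw [h7 y]
        refine (abs_sub _ _).trans (add_le_add_right ?_ _)
        refine (Finset.abs_sum_le_sum_abs _ _).trans (le_of_eq ?_)
        exact Finset.sum_congr rfl fun z _ => abs_mul _ _
      have e2 : ∑ y, |(1 : Matrix β β ℝ) x y| = 1 := by
        rw [Finset.sum_eq_single x]
        · rw [Matrix.one_apply_eq, abs_one]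
        · intro y _ hy
          rw [Matrix.one_apply_ne hy.symm, abs_zero]
        · intro h
          exact absurd (Finset.mem_univ x) h
      have e3 : ∑ y, ∑ z, |gi x z| * |g z y - (1 : Matrix β β ℝ) z y| ≤ s * (1 / 4) := by
        rw [Finset.sum_comm, hs, Finset.sum_mul]
        refine Finset.sum_le_sum fun z _ => ?_
        rw [← Finset.mul_sum]
        exact mul_le_mul_of_nonneg_left (hr z) (abs_nonneg _)
      rw [Finset.sum_add_distrib, e2] at e1
      linarith
    linarith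

end N2M

open N2M

theorem hN2 (hFin : StFin) (hBn : StBn) (hHh : StHh) (hBox : StBox) : StN2 := by
  classical
  intro d n p hp0 hp1 hG3
  obtain ⟨hFG, -, hlat, -, -⟩ := hBn d n
  have hES := (hBox d).2.2.2.2.2.2.2.1
  have hsym := (hBox d).2.2.2.1
  obtain ⟨-, hcp, -, hcp0, -⟩ := hHh (Zd d) (Bn d n) (ES (Bn d n)) (2 * d) p hFG hp0 hp1
  have hF := fun v x => hFin d (ES (Bn d n)) p hp0 hp1 hlat hG3 v x
  have hdrt : ∀ F : Zd d → Zd d → ℝ, ∑ ub ∈ drt (ES (Bn d n)), F ub.1 ub.2 =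
      ∑ u ∈ Bn d n, ∑ b ∈ Bn d n, if b ∈ nb u then F u b else 0 := by
    intro F
    have h1 : ∑ ub ∈ drt (ES (Bn d n)), F ub.1 ub.2 =
        ∑ u ∈ Bn d n, ∑ b ∈ (Bn d n).filter (fun b => b ∈ nb u), F u b := by
      refine Finset.sum_finset_product (drt (ES (Bn d n))) (Bn d n)
        (fun u => (Bn d n).filter (fun b => b ∈ nb u)) ?_
      intro q
      rw [mem_drt', Finset.mem_filter]
      exact hES (Bn d n) q.1 q.2
    rw [h1]
    exact Finset.sum_congr rfl fun u _ => Finset.sum_filter _ _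
  have ha : ∀ x ∈ Bn d n, ∀ y : Zd d, y ∉ Bn d n → gT (ES (Bn d n)) p x y = 0 := by
    intro x hx y hy
    have h1 := (hF x y).2.2.2
    rw [hcp0 x y hx hy, hdrt (fun u b => gT (ES (Bn d n)) p x u * p * cp (ES (Bn d n)) p b y)] at h1
    have h2 : ∑ u ∈ Bn d n, ∑ b ∈ Bn d n,
        (if b ∈ nb u then gT (ES (Bn d n)) p x u * p * cp (ES (Bn d n)) p b y else 0) = 0 := by
      refine Finset.sum_eq_zero fun u _ => Finset.sum_eq_zero fun b hb => ?_
      rw [hcp0 b y hb hy, mul_zero, ite_self]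
    rw [h2, add_zero] at h1
    exact h1.symm
  have hrow : ∀ x : Zd d, ∑ y ∈ Bn d n, |gT (ES (Bn d n)) p x y - ind (y = x)| ≤ 1 / 4 := by
    intro x
    have h1 := (hF x x).2.2.1 x
    have h2 : Summable (fun y : Zd d => |gT (ES (Bn d n)) p x y - ind (y = x)|) := by
      have h3 := (hF x x).2.1 x
      have h4 : Summable (fun y : Zd d => |ind (y = x)|) := by
        refine summable_of_ne_finset_zero (s := {x}) ?_
        intro y hy
        have : y ≠ x := fun h => hy (by rw [h]; exact Finset.mem_singleton_self x)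
        unfold ind
        rw [if_neg this, abs_zero]
      refine Summable.of_nonneg_of_le (fun y => abs_nonneg _) (fun y => ?_) (h3.add h4)
      exact abs_sub _ _
    exact (h2.sum_le_tsum (Bn d n) (fun y _ => abs_nonneg _)).trans h1
  -- matrices
  let β : Type := {x : Zd d // x ∈ Bn d n}
  let g : Matrix β β ℝ := fun x y => gT (ES (Bn d n)) p x.1 y.1
  let G : Matrix β β ℝ := fun x y => cp (ES (Bn d n)) p x.1 y.1
  let P : Matrix β β ℝ := fun x y => ind (y.1 ∈ nb x.1) * p
  have hsum : ∀ F : Zd d → ℝ, ∑ y : β, F y.1 = ∑ y ∈ Bn d n, F y := by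
    intro F
    exact Finset.sum_coe_sort (Bn d n) F
  have hGt : Gᵀ = G := by
    ext x y
    exact (hcp y.1 x.1).1
  have hPt : Pᵀ = P := by
    ext x y
    show ind (x.1 ∈ nb y.1) * p = ind (y.1 ∈ nb x.1) * p
    have h1 : (x.1 ∈ nb y.1) = (y.1 ∈ nb x.1) := propext (hsym y.1 x.1)
    rw [h1]
  have hEq : G = g + g * P * G := by
    ext v x
    rw [Matrix.add_apply, mul_assoc, Matrix.mul_apply]
    have h1 := (hF v.1 x.1).2.2.2
    rw [hdrt (fun u b => gT (ES (Bn d n)) p v.1 u * p * cp (ES (Bn d n)) p b x.1)] at h1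
    show cp (ES (Bn d n)) p v.1 x.1 = gT (ES (Bn d n)) p v.1 x.1 + _
    rw [h1]
    congr 1
    rw [← hsum]
    refine Finset.sum_congr rfl fun u _ => ?_
    rw [Matrix.mul_apply, Finset.mul_sum, ← hsum]
    refine Finset.sum_congr rfl fun b _ => ?_
    show _ = gT (ES (Bn d n)) p v.1 u.1 * (ind (b.1 ∈ nb u.1) * p * cp (ES (Bn d n)) p b.1 x.1)
    rw [mul_assoc (ind _), ind_mul_ite, mul_ite, mul_zero, mul_assoc]
  have hr : ∀ x : β, ∑ y, |g x y - (1 : Matrix β β ℝ) x y| ≤ 1 / 4 := by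
    intro x
    refine le_trans (le_of_eq ?_) (hrow x.1)
    rw [← hsum]
    refine Finset.sum_congr rfl fun y _ => ?_
    show |gT (ES (Bn d n)) p x.1 y.1 - (1 : Matrix β β ℝ) x y| =
      |gT (ES (Bn d n)) p x.1 y.1 - ind (y.1 = x.1)|
    congr 2
    rw [Matrix.one_apply]
    unfold ind
    by_cases hxy : x = y
    · rw [if_pos hxy, if_pos (congrArg Subtype.val hxy).symm]
    · rw [if_neg hxy, if_neg (fun h => hxy (Subtype.ext h.symm))]
  obtain ⟨gi, hgit, hgig, hM1, hM2, hgt, hd, hrs⟩ := lin g G P hGt hPt hEq hr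
  refine ⟨ha, ?_, ?_, ?_, ?_⟩
  · intro x hx
    have h1 : ∑ y ∈ Bn d n, |gT (ES (Bn d n)) p x y| ≤
        ∑ y ∈ Bn d n, (|gT (ES (Bn d n)) p x y - ind (y = x)| + |ind (y = x)|) := by
      refine Finset.sum_le_sum fun y _ => ?_
      have := abs_add_le (gT (ES (Bn d n)) p x y - ind (y = x)) (ind (y = x))
      rwa [sub_add_cancel] at this
    have h2 : ∑ y ∈ Bn d n, |ind (y = x)| = 1 := by
      rw [Finset.sum_eq_single x]
      · unfold ind
        rw [if_pos rfl, abs_one]
      · intro y _ hy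
        unfold ind
        rw [if_neg hy, abs_zero]
      · intro h
        exact absurd hx h
    rw [Finset.sum_add_distrib, h2] at h1
    have := hrow x
    linarith
  · intro x hx y hy
    have := congrFun (congrFun hgt ⟨y, hy⟩) ⟨x, hx⟩
    exact this
  · intro v hv x hx
    have h1 := congrFun (congrFun hd ⟨v, hv⟩) ⟨x, hx⟩
    rw [Matrix.add_apply, Matrix.mul_apply] at h1
    refine (h1 : cp (ES (Bn d n)) p v x = _).trans ?_
    show gT (ES (Bn d n)) p v x + _ = _
    congr 1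
    rw [← hsum]
    refine Finset.sum_congr rfl fun b _ => ?_
    rw [Matrix.mul_apply, Finset.mul_sum, ← hsum]
    refine Finset.sum_congr rfl fun u _ => ?_
    show cp (ES (Bn d n)) p v b.1 * (ind (u.1 ∈ nb b.1) * p * gT (ES (Bn d n)) p u.1 x) = _
    rw [mul_assoc (ind _), ind_mul_ite, mul_ite, mul_zero, mul_assoc]
  · obtain ⟨Q, hQ1, hQ0⟩ : ∃ Q : Zd d → Zd d → ℝ, (∀ x y : β, Q x.1 y.1 = gi x y) ∧
        ∀ x y : Zd d, ¬ (x ∈ Bn d n ∧ y ∈ Bn d n) → Q x y = 0 := by
      refine ⟨fun x y => if h : x ∈ Bn d n ∧ y ∈ Bn d n then gi ⟨x, h.1⟩ ⟨y, h.2⟩ else 0, ?_, ?_⟩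
      · intro x y
        exact dif_pos (And.intro x.2 y.2)
      · intro x y h
        exact dif_neg h
    have hone : ∀ v (hv : v ∈ Bn d n) x (hx : x ∈ Bn d n),
        ind (v = x) = if (⟨v, hv⟩ : β) = ⟨x, hx⟩ then (1 : ℝ) else 0 := by
      intro v hv x hx
      unfold ind
      by_cases hvx : v = x
      · rw [if_pos hvx, if_pos (Subtype.ext hvx)]
      · rw [if_neg hvx, if_neg (fun h => hvx (congrArg Subtype.val h))]
    refine ⟨Q, ?_, ?_, ?_, ?_, ?_, ?_⟩
    · intro x y h
      refine hQ0 x y ?_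
      rintro ⟨h1, h2⟩
      rcases h with h | h
      · exact h h1
      · exact h h2
    · intro x y
      by_cases h : x ∈ Bn d n ∧ y ∈ Bn d n
      · have h1 := hQ1 ⟨x, h.1⟩ ⟨y, h.2⟩
        have h2 := hQ1 ⟨y, h.2⟩ ⟨x, h.1⟩
        have h3 : gi ⟨y, h.2⟩ ⟨x, h.1⟩ = gi ⟨x, h.1⟩ ⟨y, h.2⟩ :=
          congrFun (congrFun hgit ⟨x, h.1⟩) ⟨y, h.2⟩
        exact h1.trans (h3.symm.trans h2.symm)
      · rw [hQ0 x y h, hQ0 y x (fun h' => h ⟨h'.2, h'.1⟩)]
    · intro x
      by_cases hx : x ∈ Bn d n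
      · refine le_trans (le_of_eq ?_) (hrs ⟨x, hx⟩)
        rw [← hsum]
        refine Finset.sum_congr rfl fun y _ => ?_
        exact congrArg abs (hQ1 ⟨x, hx⟩ y)
      · have : ∑ y ∈ Bn d n, |Q x y| = 0 := by
          refine Finset.sum_eq_zero fun y _ => ?_
          rw [hQ0 x y (fun h => hx h.1), abs_zero]
        rw [this]
        norm_num
    · intro v hv x hx
      have h1 := congrFun (congrFun hgig ⟨v, hv⟩) ⟨x, hx⟩
      rw [Matrix.mul_apply, Matrix.one_apply] at h1
      rw [← hsum, hone v hv x hx, ← h1]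
      refine Finset.sum_congr rfl fun u _ => ?_
      exact congrArg (fun t => t * gT (ES (Bn d n)) p u.1 x) (hQ1 ⟨v, hv⟩ u)
    · intro v hv x hx
      have h1 := congrFun (congrFun hM1 ⟨v, hv⟩) ⟨x, hx⟩
      rw [Matrix.mul_apply, Matrix.one_apply] at h1
      rw [← hsum, hone v hv x hx, ← h1]
      refine Finset.sum_congr rfl fun u _ => ?_
      rw [Matrix.sub_apply]
      exact congrArg (fun t => (t - ind (u.1 ∈ nb v) * p) * cp (ES (Bn d n)) p u.1 x)
        (hQ1 ⟨v, hv⟩ u)
    · intro v hv x hx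
      have h1 := congrFun (congrFun hM2 ⟨v, hv⟩) ⟨x, hx⟩
      rw [Matrix.mul_apply, Matrix.one_apply] at h1
      rw [← hsum, hone v hv x hx, ← h1]
      refine Finset.sum_congr rfl fun u _ => ?_
      rw [Matrix.sub_apply]
      have h3 : (u.1 ∈ nb x) = (x ∈ nb u.1) := propext (hsym x u.1)
      show cp (ES (Bn d n)) p v u.1 * (Q u.1 x - ind (u.1 ∈ nb x) * p) =
        cp (ES (Bn d n)) p v u.1 * (gi u ⟨x, hx⟩ - ind (x ∈ nb u.1) * p)
      rw [h3]
      exact congrArg (fun t => cp (ES (Bn d n)) p v u.1 * (t - ind (x ∈ nb u.1) * p))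
        (hQ1 u ⟨x, hx⟩)

end Pool.CN
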